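import Pool.Agent.W254.HP.Gen
import Pool.Agent.H297R2.Density

/-!
# Baker's theorem for almost all primes, with coefficients in arbitrary spaces of complex numbers

Baker's theorem says that `1` and the logarithms of the primes are linearly independent over the field
of the algebraic numbers. Here the coefficients are taken from an arbitrary finite dimensional space
`U` of complex numbers over the algebraic numbers, for example the space of all values
`P (t_1, ..., t_n)`, where `P` is a polynomial of degree at most `D` in each variable and the `t_i`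
are arbitrary complex numbers, such as logarithms of other primes. There is a finite set `E` of primes, whose size is
bounded in terms of the dimension of `U` only, such that `1` and the logarithms of the primes outside `E`
satisfy no nontrivial linear relation with coefficients in `U`.

The proof uses the hyperplane case of the linear subgroup theorem of Waldschmidt and Roy
(starting library `Pool.Agent.W254.HP`).
-/

set_option autoImplicit false

namespace Pool.Agent.Results.MP_d171e3_nt.ArbitraryCoefficientSpaces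

open Module Finset MvPolynomial
open Pool.Agent.H301R2.SSE (QB mem_QB Lt Lt_rep Lt_mul Lt_alg Lt_log)
open Pool.Agent.W254.HP

/-- the logarithm of a prime -/
noncomputable def lg (p : {p : ℕ // p.Prime}) : ℂ := ((Real.log (p : ℕ) : ℝ) : ℂ)

theorem lg_alg (p : {p : ℕ // p.Prime}) : IsAlgebraic ℚ (Complex.exp (lg p)) := by
  have hp := p.2.pos
  unfold lg
  rw [← Complex.ofReal_exp, Real.exp_log (by exact_mod_cast hp)]
  exact_mod_cast isAlgebraic_algebraMap (R := ℚ) (A := ℂ) ((p : ℕ) : ℚ)

theorem lg_indep : LinearIndependent ℚ lg := by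
  classical
  rw [linearIndependent_iff_finset_linearIndependent]
  intro s
  have h := Pool.Agent.H297R2.linearIndependent_log_prime (ι := s)
    (fun i => ((i : {p : ℕ // p.Prime}) : ℕ)) (fun i => (i : {p : ℕ // p.Prime}).2)
    (fun a b hab => Subtype.ext (Subtype.ext hab))
  exact h

/-- the exceptional set as a set of natural numbers -/
theorem to_nat (A : Submodule QB ℂ) (E : Finset {p : ℕ // p.Prime})
    (h : ∀ f : Option {p : ℕ // p.Prime} →₀ ℂ, (∀ s, f s ∈ A) →
      f.sum (fun s c => c * (s.elim 1 lg : ℂ)) = 0 → (∀ s ∈ E, f (some s) = 0) → f = 0)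
    (S : Finset ℕ) (hS : ∀ p ∈ S, p.Prime ∧ p ∉ E.image (fun p : {p : ℕ // p.Prime} => (p : ℕ)))
    (u₀ : ℂ) (u : ℕ → ℂ) (h0 : u₀ ∈ A) (hu : ∀ p ∈ S, u p ∈ A)
    (hs : u₀ + ∑ p ∈ S, u p * (Real.log p : ℂ) = 0) : u₀ = 0 ∧ ∀ p ∈ S, u p = 0 := by
  classical
  let g : {p : ℕ // p.Prime} →₀ ℂ :=
    Finsupp.onFinset (S.subtype Nat.Prime) (fun p => if (p : ℕ) ∈ S then u p else 0) (by
      intro p hp
      rw [Finset.mem_subtype]
      by_contra h1
      exact hp (if_neg h1))
  have hg : ∀ p : {p : ℕ // p.Prime}, g p = if (p : ℕ) ∈ S then u p else 0 := fun p => rfl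
  have hgA : ∀ p, g p ∈ A := by
    intro p
    rw [hg]
    split_ifs with h1
    · exact hu _ h1
    · exact A.zero_mem
  let f : Option {p : ℕ // p.Prime} →₀ ℂ := Finsupp.single none u₀ + g.mapDomain some
  have hsome : ∀ s, (g.mapDomain some) (some s) = g s := fun s =>
    Finsupp.mapDomain_apply (Option.some_injective _) _ _
  have hnone : (g.mapDomain some) (none : Option {p : ℕ // p.Prime}) = 0 := by
    apply Finsupp.mapDomain_of_notMem_range
    simp
  have f0 : f none = u₀ := by
    simp only [f, Finsupp.add_apply, Finsupp.single_eq_same, hnone, add_zero]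
  have f1 : ∀ s, f (some s) = g s := by
    intro s
    simp only [f, Finsupp.add_apply, hsome]
    rw [Finsupp.single_apply, if_neg (by simp), zero_add]
  have hsum : f.sum (fun s c => c * (s.elim 1 lg : ℂ)) = 0 := by
    have h1 : f.sum (fun s c => c * (s.elim 1 lg : ℂ)) =
        (Finsupp.single (none : Option {p : ℕ // p.Prime}) u₀).sum
          (fun s c => c * (s.elim 1 lg : ℂ)) +
          (g.mapDomain some).sum (fun s c => c * (s.elim 1 lg : ℂ)) :=
      Finsupp.sum_add_index' (by intro i; ring) (by intro i a b; ring)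
    rw [h1, Finsupp.sum_single_index (by ring), Finsupp.sum_mapDomain_index (by intro i; ring)
      (by intro i a b; ring)]
    have h2 : g.sum (fun s c => c * ((some s : Option {p : ℕ // p.Prime}).elim 1 lg : ℂ)) =
        ∑ p ∈ S.subtype Nat.Prime, (if (p : ℕ) ∈ S then u p else 0) * lg p := by
      exact Finsupp.onFinset_sum _ (by intro i; ring)
    rw [h2]
    have h3 : ∑ p ∈ S.subtype Nat.Prime, (if (p : ℕ) ∈ S then u p else 0) * lg p =
        ∑ p ∈ S, u p * (Real.log p : ℂ) := by
      have h4 := Finset.sum_subtype_of_mem (s := S) (p := Nat.Prime)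
        (fun p : ℕ => (if p ∈ S then u p else 0) * ((Real.log p : ℝ) : ℂ))
        (fun p hp => (hS p hp).1)
      refine Eq.trans ?_ (h4.trans ?_)
      · rfl
      · apply Finset.sum_congr rfl
        intro p hp
        rw [if_pos hp]
    rw [h3]
    simpa using hs
  have hf := h f ?_ hsum ?_
  · refine ⟨?_, fun p hp => ?_⟩
    · rw [← f0, hf]; rfl
    · have h4 : f (some ⟨p, (hS p hp).1⟩) = 0 := by rw [hf]; rfl
      rw [f1, hg, if_pos hp] at h4
      exact h4
  · intro s
    cases s with
    | none => rw [f0]; exact h0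
    | some s => rw [f1]; exact hgA s
  · intro s hs'
    rw [f1, hg, if_neg]
    intro h5
    exact (hS _ h5).2 (Finset.mem_image_of_mem _ hs')

/-- **Main result.** `ℚ̄` is the field of the algebraic numbers.

(1) Let `U`, `X ≠ 0`, `Y` be finite dimensional `ℚ̄`-spaces of complex numbers with `X U ⊆ Y` (for
example `X = ℚ̄` and `Y = U`, of dimension `d`; then the bound for `E` is `d (d - 1)`). There is a set
`E` of primes with `|E| dim X ≤ dim Y (dim Y - 1)` such that `u_0 + ∑_{p ∈ S} u_p log p ≠ 0` for every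
finite set `S` of primes outside `E` and all `u_0, u_p ∈ U` which are not all zero.

(2) Let `t_1, ..., t_n` be arbitrary complex numbers and `D ≥ 0`. There is a set `E` of at most
`(4 D) ^ n - 2 ^ n` primes such that `P_0(t) + ∑_{p ∈ S} P_p(t) log p ≠ 0` for every finite set `S` of
primes outside `E` and all polynomials `P_0, P_p` over `ℚ̄`, of degree at most `D` in each variable,
whose values at `t` are not all zero.

(3) For arbitrary complex numbers `t_1, ..., t_n`, at most `(4 D) ^ n - 2 ^ n` primes have a logarithm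
of the form `A(t) / B(t)`, where `A`, `B` are polynomials over `ℚ̄` of degree at most `D` in each
variable and `B(t) ≠ 0`. -/
theorem result :
    (∀ U X Y : Submodule (algebraicClosure ℚ ℂ) ℂ,
      FiniteDimensional (algebraicClosure ℚ ℂ) U → FiniteDimensional (algebraicClosure ℚ ℂ) X →
      FiniteDimensional (algebraicClosure ℚ ℂ) Y → X ≠ ⊥ → (∀ x ∈ X, ∀ u ∈ U, x * u ∈ Y) →
      ∃ E : Finset ℕ, E.card * finrank (algebraicClosure ℚ ℂ) X ≤
          finrank (algebraicClosure ℚ ℂ) Y * (finrank (algebraicClosure ℚ ℂ) Y - 1) ∧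
        ∀ S : Finset ℕ, (∀ p ∈ S, p.Prime ∧ p ∉ E) → ∀ (u₀ : ℂ) (u : ℕ → ℂ),
          u₀ ∈ U → (∀ p ∈ S, u p ∈ U) → u₀ + ∑ p ∈ S, u p * (Real.log p : ℂ) = 0 →
            u₀ = 0 ∧ ∀ p ∈ S, u p = 0) ∧
    (∀ (n D : ℕ) (t : Fin n → ℂ), ∃ E : Finset ℕ, E.card ≤ (4 * D) ^ n - 2 ^ n ∧
      ∀ S : Finset ℕ, (∀ p ∈ S, p.Prime ∧ p ∉ E) →
        ∀ (P₀ : MvPolynomial (Fin n) (algebraicClosure ℚ ℂ))
          (P : ℕ → MvPolynomial (Fin n) (algebraicClosure ℚ ℂ)),
          (∀ i, P₀.degreeOf i ≤ D) → (∀ p ∈ S, ∀ i, (P p).degreeOf i ≤ D) →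
          aeval t P₀ + ∑ p ∈ S, aeval t (P p) * (Real.log p : ℂ) = 0 →
            aeval t P₀ = 0 ∧ ∀ p ∈ S, aeval t (P p) = 0) ∧
    (∀ (n D : ℕ) (t : Fin n → ℂ), ∃ E : Finset ℕ, E.card ≤ (4 * D) ^ n - 2 ^ n ∧
      ∀ p : ℕ, p.Prime → p ∉ E → ∀ A B : MvPolynomial (Fin n) (algebraicClosure ℚ ℂ),
        (∀ i, A.degreeOf i ≤ D) → (∀ i, B.degreeOf i ≤ D) → aeval t B ≠ 0 →
          (Real.log p : ℂ) ≠ aeval t A / aeval t B) := by
  classical
  have hw := opt_indep lg lg_alg lg_indep
  have hL : ∀ o : Option {p : ℕ // p.Prime}, (o.elim 1 lg : ℂ) ∈ Lt := by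
    intro o
    cases o with
    | none => exact Lt_alg isAlgebraic_one
    | some i => exact Lt_log (lg_alg i)
  have key : ∀ (E : Finset (Option {p : ℕ // p.Prime})), none ∉ E →
      (E.eraseNone.image (fun p : {p : ℕ // p.Prime} => (p : ℕ))).card ≤ E.card := by
    intro E _
    refine (Finset.card_image_le).trans ?_
    rw [← Finset.card_map (s := E.eraseNone) Function.Embedding.some]
    apply Finset.card_le_card
    intro o ho
    obtain ⟨i, hi, rfl⟩ := Finset.mem_map.mp ho
    exact Finset.mem_eraseNone.mp hi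
  have h2 : ∀ (n D : ℕ) (t : Fin n → ℂ), ∃ E : Finset ℕ, E.card ≤ (4 * D) ^ n - 2 ^ n ∧
      ∀ S : Finset ℕ, (∀ p ∈ S, p.Prime ∧ p ∉ E) →
        ∀ (P₀ : MvPolynomial (Fin n) (algebraicClosure ℚ ℂ))
          (P : ℕ → MvPolynomial (Fin n) (algebraicClosure ℚ ℂ)),
          (∀ i, P₀.degreeOf i ≤ D) → (∀ p ∈ S, ∀ i, (P p).degreeOf i ≤ D) →
          aeval t P₀ + ∑ p ∈ S, aeval t (P p) * (Real.log p : ℂ) = 0 →
            aeval t P₀ = 0 ∧ ∀ p ∈ S, aeval t (P p) = 0 := by
    intro n D t
    obtain ⟨E, hE0, hE1, hE2⟩ := gen_exceptional t D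
      (fun o : Option {p : ℕ // p.Prime} => (o.elim 1 lg : ℂ)) hw hL none
    refine ⟨E.eraseNone.image (fun p : {p : ℕ // p.Prime} => (p : ℕ)), (key E hE0).trans hE1, fun S hS P₀ P hP₀ hP hs => ?_⟩
    have hmem : ∀ Q : MvPolynomial (Fin n) QB, (∀ i, Q.degreeOf i ≤ D) →
        aeval t Q ∈ boxV t (D + 1) := by
      intro Q hQ
      rw [aeval_def, eval₂_eq]
      apply Submodule.sum_mem
      intro m hm
      have h5 := (boxV t (D + 1)).smul_mem (coeff m Q)
        (mon_mem t (D + 1) (fun i => m i) (fun i => Nat.lt_succ_of_le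
          ((MvPolynomial.monomial_le_degreeOf i hm).trans (hQ i))))
      rw [Algebra.smul_def] at h5
      have h6 : ∏ i, t i ^ m i = ∏ i ∈ m.support, t i ^ m i := by
        symm
        apply Finset.prod_subset (Finset.subset_univ _)
        intro i _ hi
        rw [Finsupp.notMem_support_iff.mp hi, pow_zero]
      rw [h6] at h5
      exact h5
    exact to_nat (boxV t (D + 1)) E.eraseNone (fun f hf1 hf2 hf3 => hE2 f hf1 hf2 (fun s hs' => by
      cases s with
      | none => exact absurd hs' hE0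
      | some s => exact hf3 s (Finset.mem_eraseNone.mpr hs'))) S hS _ _ (hmem P₀ hP₀)
      (fun p hp => hmem (P p) (hP p hp)) hs
  refine ⟨?_, h2, ?_⟩
  · intro U X Y hU hX hY hX0 hXY
    have hXp : 0 < finrank QB X := by
      rw [Nat.pos_iff_ne_zero]
      intro h
      exact hX0 (Submodule.finrank_eq_zero.mp h)
    obtain ⟨E, hE0, hE1, hE2⟩ := exists_exceptional
      (fun o : Option {p : ℕ // p.Prime} => (o.elim 1 lg : ℂ)) hw hL U X Y hXp hXY none
    refine ⟨E.eraseNone.image (fun p : {p : ℕ // p.Prime} => (p : ℕ)),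
      (Nat.mul_le_mul_right _ (key E hE0)).trans hE1, fun S hS u₀ u h0 hu hs => ?_⟩
    exact to_nat U E.eraseNone (fun f hf1 hf2 hf3 => hE2 f hf1 hf2 (fun s hs' => by
      cases s with
      | none => exact absurd hs' hE0
      | some s => exact hf3 s (Finset.mem_eraseNone.mpr hs'))) S hS u₀ u h0 hu hs
  · intro n D t
    obtain ⟨E, hE1, hE2⟩ := h2 n D t
    refine ⟨E, hE1, fun p hp hpE A B hA hB hB0 heq => ?_⟩
    have h3 := hE2 {p} (by simpa using ⟨hp, hpE⟩) (-A) (fun _ => B)
      (by intro i; rw [MvPolynomial.degreeOf_neg]; exact hA i) (by intro _ _ i; exact hB i) (by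
        rw [Finset.sum_singleton, heq, map_neg, mul_div_cancel₀ _ hB0]
        ring)
    exact hB0 (h3.2 p (Finset.mem_singleton_self p))

end Pool.Agent.Results.MP_d171e3_nt.ArbitraryCoefficientSpaces
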