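import Pool.Agent.Y916.Al.WinP

/-!
# Logarithms of the primes of short windows

For all `q`, `k`, `D`, `δ` there is a number `E` such that for all `N`, `H` with `(H + 2)^E ≤ N` and all complex numbers
`w_1, …, w_q` there is a set `S` of **at most `q + 1`** primes with the following property. Let `p_1, …, p_k` be **any** distinct
primes in `(N, N + H]` which are not in `S`. Then every relation of degree at most `δ` between `log p_1, …, log p_k`, with
coefficients which are polynomials in `w_1, …, w_q` over a number field of degree at most `D`, is trivial: the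
polynomial is zero after the substitution of the numbers `w_1, …, w_q`. There is no bound for the heights of the
coefficients and of the number field, and `E` does not depend on the `w_j`.

For `q = 0`: in every window `(N, N + N^c]`, `c = c(k, D, δ) > 0`, there is at most **one** prime such that the logarithms
of any `k` other primes of the window satisfy no nonzero polynomial relation of degree at most `δ` over any number field of
degree at most `D`. If `w_1, …, w_q` are algebraically independent, the numbers `w_1, …, w_q, log p_1, …, log p_k` satisfy no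
such relation. The numbers `w_j` may be `π`, `e`, logarithms of any other primes.

The results `AlmostAllPrimes`, `ArbitraryConstants`, `PrimeTuplesAllHeights` on this problem count the exceptional
`k`-tuples of primes up to `T`, and they do not exclude that all tuples from short intervals are exceptional.

Proof. The theorem `Pool.Agent.Y916.Al.windowP` (Siegel's method for the functions `log (1 + β x)` and their powers, all
shifts `β` at once, behind `MP_60829e_nt.AlgebraicWindows`) is applied at `ξ = N` with `β_i = p_i - N` and the constants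
`w_1, …, w_q, log N`.
-/

set_option autoImplicit false

namespace Pool.Agent.Results.MP_d171e3_nt.PrimesInWindows

/-- For all `q`, `k`, `D`, `δ` there is `E` such that for all `N`, `H` with `(H + 2)^E ≤ N` and all `w_1, …, w_q` there is a
set `S` of at most `q + 1` numbers such that for all distinct primes `p_1, …, p_k` in `(N, N + H]` outside `S` every
polynomial `P` of degree at most `δ` over a number field `K` of degree at most `D` which vanishes at
`w_1, …, w_q, log p_1, …, log p_k` is zero after the substitution of `w_1, …, w_q`. -/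
theorem result (q k D δ : ℕ) : ∃ E : ℕ, ∀ N H : ℕ, (H + 2) ^ E ≤ N → ∀ w : Fin q → ℂ, ∃ S : Finset ℕ, S.card ≤ q + 1 ∧
    ∀ p : Fin k → ℕ, Function.Injective p → (∀ i, (p i).Prime ∧ N < p i ∧ p i ≤ N + H ∧ p i ∉ S) →
    ∀ K : IntermediateField ℚ ℂ, FiniteDimensional ℚ K → Module.finrank ℚ K ≤ D →
    ∀ P : MvPolynomial (Fin q ⊕ Fin k) K, P.totalDegree ≤ δ →
      MvPolynomial.aeval (Sum.elim w fun i => ((Real.log (p i) : ℝ) : ℂ)) P = 0 →
      MvPolynomial.aeval (Sum.elim (fun j => MvPolynomial.C (w j)) MvPolynomial.X) P = (0 : MvPolynomial (Fin k) ℂ) := by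
  classical
  obtain ⟨E, hE1, hE⟩ := Pool.Agent.Y916.Al.windowP k (D + 1) δ (q + 1) 1 1 1 1
  refine ⟨E, fun N H hN w => ?_⟩
  have hN1 : 1 ≤ N := (Nat.one_le_pow _ _ (by omega)).trans hN
  have hNR : (0 : ℝ) < N := by exact_mod_cast hN1
  have hNC : (N : ℂ) ≠ 0 := by exact_mod_cast (show N ≠ 0 by omega)
  have hnorm : ‖(N : ℂ)‖ = N := Complex.norm_natCast N
  have hHt : Pool.Agent.Y916.Al.Ht 1 1 (N : ℂ) := by
    refine ⟨Polynomial.X - Polynomial.C (N : ℤ), Polynomial.X_sub_C_ne_zero _, ?_, fun j => ?_, ?_⟩
    · rw [Polynomial.natDegree_X_sub_C]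
    · rw [hnorm, pow_one, Polynomial.coeff_sub, Polynomial.coeff_X, Polynomial.coeff_C]
      have h1 : (1 : ℝ) ≤ N := by exact_mod_cast hN1
      split_ifs with h2 h3 h3
      · omega
      · simpa using h1
      · simp
      · simp
    · rw [map_sub, Polynomial.aeval_X, Polynomial.aeval_C]
      simp
  -- the constants `w` and `log N`
  obtain ⟨S, hS, h⟩ := hE H (N : ℂ) (by
    rw [hnorm]
    exact_mod_cast hN) hHt (Option (Fin q)) (fun o => o.elim ((Real.log N : ℝ) : ℂ) w) Finset.univ
    (by rw [Finset.card_univ, Fintype.card_option, Fintype.card_fin]) (Pool.Agent.Y916.Om.Dom.univ _)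
  -- the exceptional numbers
  set S' : Finset ℕ := (Finset.Ioc N (N + H)).filter fun n => ((n : ℂ) - N) ∈ S with hS'
  refine ⟨S', ?_, ?_⟩
  · refine le_trans ?_ hS
    refine Finset.card_le_card_of_injOn (fun n => (n : ℂ) - N) (fun n hn => ?_) (fun a _ b _ hab => ?_)
    · have h1 := Finset.mem_coe.1 hn
      rw [hS', Finset.mem_filter] at h1
      exact h1.2
    · have h1 : (a : ℂ) = b := sub_left_injective hab
      exact_mod_cast h1
  intro p hp hpS K hK hKD P hP hP0
  have hβ : ∀ i, ((p i : ℂ) - N) ∉ S ∧ ((p i : ℂ) - N) ≠ 0 ∧ Pool.Agent.Y916.Ari.Adm (D + 1) H ((p i : ℂ) - N) := by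
    intro i
    obtain ⟨-, h1, h2, h3⟩ := hpS i
    refine ⟨fun h4 => h3 ?_, ?_, ?_⟩
    · rw [hS', Finset.mem_filter, Finset.mem_Ioc]
      exact ⟨⟨h1, h2⟩, h4⟩
    · rw [sub_ne_zero]
      exact_mod_cast h1.ne'
    · refine ⟨Polynomial.X - Polynomial.C ((p i : ℤ) - N), Polynomial.X_sub_C_ne_zero _, ?_, fun j => ?_, ?_⟩
      · rw [Polynomial.natDegree_X_sub_C]
        omega
      · rw [Polynomial.coeff_sub, Polynomial.coeff_X, Polynomial.coeff_C]
        have h4 : (1 : ℤ) ≤ H := by
          have : 1 ≤ H := by omega
          exact_mod_cast this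
        split_ifs with h5 h6 h6
        · omega
        · rw [sub_zero, abs_one]
          exact h4
        · rw [zero_sub, abs_neg, abs_of_nonneg (by
            have : (N : ℤ) < p i := by exact_mod_cast h1
            omega)]
          have : (p i : ℤ) ≤ N + H := by exact_mod_cast h2
          omega
        · rw [sub_zero, abs_zero]
          omega
      · rw [map_sub, Polynomial.aeval_X, Polynomial.aeval_C]
        simp
  have hinj : Function.Injective fun i => ((p i : ℂ) - N) := by
    intro a b hab
    have h1 : (p a : ℂ) = p b := sub_left_injective hab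
    exact hp (by exact_mod_cast h1)
  have hlog : ∀ i, ((Real.log (p i) : ℝ) : ℂ) - (1 : K) * Complex.log (1 + ((p i : ℂ) - N) / N) ∈
      Submodule.span K (insert 1 (Set.range fun o : Option (Fin q) => o.elim ((Real.log N : ℝ) : ℂ) w)) := by
    intro i
    have h1 : (0 : ℝ) < p i := by
      have := (hpS i).2.1
      exact_mod_cast (show 0 < p i by omega)
    have h2 : (1 : ℂ) + ((p i : ℂ) - N) / N = (((p i : ℝ) / N : ℝ) : ℂ) := by
      push_cast
      field_simp
      ring
    have h3 : ((Real.log (p i) : ℝ) : ℂ) - (1 : K) * Complex.log (1 + ((p i : ℂ) - N) / N) = ((Real.log N : ℝ) : ℂ) := by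
      rw [h2, ← Complex.ofReal_log (div_pos h1 hNR).le, Real.log_div h1.ne' hNR.ne']
      push_cast
      ring
    rw [h3]
    exact Submodule.subset_span (Or.inr ⟨none, rfl⟩)
  -- the relation
  have hK' : Module.finrank ℚ K ≤ D + 1 := hKD.trans (Nat.le_succ D)
  have h1 := h (fun i => (p i : ℂ) - N) hinj hβ K hK hK' (fun i => ((Real.log (p i) : ℝ) : ℂ))
    (fun i => ⟨1, one_ne_zero, hlog i⟩) (MvPolynomial.rename (Sum.map some id) P)
    ((MvPolynomial.totalDegree_rename_le _ _).trans hP) (by
      rw [MvPolynomial.aeval_rename, ← hP0]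
      congr 2
      funext x
      rcases x with x | x <;> rfl)
  rw [MvPolynomial.aeval_rename] at h1
  rw [← h1]
  congr 2
  funext x
  rcases x with x | x <;> rfl

end Pool.Agent.Results.MP_d171e3_nt.PrimesInWindows
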